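import Pool.Agent.H99.CR2

/-! An orbit of local CR diffeomorphisms that is not an immersed submanifold. -/

open Filter Topology Set Pool.Agent.H99.CR

noncomputable section

namespace Pool.Agent.Results.MP_430a41_an.Q1

def N : ℕ → ℕ
  | 0 => 0
  | j + 1 => (N j + j + 2) * j + N j + j + 3

def d (j : ℕ) : ℝ := (1 / 2) ^ N j

def h (j : ℕ) : ℝ := (1 / 2) ^ (N j + j)

def S (b : ℕ → Bool) : ℕ → ℝ
  | 0 => 0
  | j + 1 => S b j + if b j then d (j + 1) else 0

theorem d_pos (j : ℕ) : 0 < d j := by unfold d; positivity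

theorem h_pos (j : ℕ) : 0 < h j := by unfold h; positivity

theorem pw {a b : ℕ} (hab : a ≤ b) : (1 / 2 : ℝ) ^ b ≤ (1 / 2) ^ a :=
  pow_le_pow_of_le_one (by norm_num) (by norm_num) hab

theorem d_succ (j : ℕ) : d (j + 1) ≤ d j / 4 := by
  refine (pw (a := N j + 2) (by rw [N]; omega)).trans_eq ?_
  rw [pow_add, d]; ring

theorem h_succ (j : ℕ) : h (j + 1) ≤ h j * (1 / 2) ^ j / 8 := by
  refine (pw (a := N j + j + j + 3) (by rw [N]; omega)).trans_eq ?_
  rw [pow_add, pow_add, h]; ring

theorem h_succ' (j : ℕ) : h (j + 1) ≤ h j / 6 := by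
  have := mul_le_mul_of_nonneg_left (pw (Nat.zero_le j)) (h_pos j).le
  linarith [h_succ j, h_pos j]

theorem S_int (b : ℕ → Bool) (j : ℕ) : ∃ k : ℤ, S b j = k * d j := by
  induction j with
  | zero => exact ⟨0, by simp [S]⟩
  | succ j ih =>
    obtain ⟨k, hk⟩ := ih
    obtain ⟨m, hm⟩ := Nat.exists_eq_add_of_le (show N j ≤ N (j + 1) by rw [N]; omega)
    have : d j = 2 ^ m * d (j + 1) := by
      rw [d, d, hm, pow_add, mul_left_comm, ← mul_pow]; simp
    refine ⟨k * 2 ^ m + if b j then 1 else 0, ?_⟩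
    rw [S, hk, this]
    split_ifs <;> push_cast <;> ring

theorem S_step (b : ℕ → Bool) (j : ℕ) : 0 ≤ S b (j + 1) - S b j ∧ S b (j + 1) - S b j ≤ d (j + 1) := by
  have := d_pos (j + 1)
  rw [S]
  split_ifs <;> constructor <;> linarith

theorem S_lim (b : ℕ → Bool) : ∃ t, Tendsto (S b) atTop (𝓝 t) ∧
    ∀ j, S b j ≤ t ∧ t ≤ S b j + d j / 2 := by
  have m : Monotone (S b) := monotone_nat_of_le_succ fun j => by linarith [(S_step b j).1]
  have a : Antitone fun j => S b j + d j / 2 := antitone_nat_of_succ_le fun j => by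
    linarith [(S_step b j).2, d_succ j, d_pos (j + 1)]
  have k : ∀ i j, S b i ≤ S b j + d j / 2 := fun i j => by
    linarith [m (le_max_left i j), a (le_max_right i j), d_pos (max i j)]
  have bd : BddAbove (range (S b)) := ⟨_, by rintro _ ⟨i, rfl⟩; exact k i 0⟩
  exact ⟨_, tendsto_atTop_ciSup m bd, fun j => ⟨le_ciSup bd j, ciSup_le fun i => k i j⟩⟩

theorem disc : IsTotallyDisconnected
    {x : ℝ | ∀ᶠ j in atTop, 0 ≤ Real.cos (2 * Real.pi * (x / d j))} := by
  have lim : Tendsto d atTop (𝓝 0) := squeeze_zero (fun j => (d_pos j).le)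
    (fun j => pw (show j ≤ N j by
      induction j with
      | zero => simp
      | succ j ih => rw [N]; omega))
    (tendsto_pow_atTop_nhds_zero_of_lt_one (by norm_num) (by norm_num))
  have := dense_iInter_of_isOpen_nat
    (f := fun J => ⋃ j ≥ J, {x : ℝ | Real.cos (2 * Real.pi * (x / d j)) < 0})
    (fun J => isOpen_biUnion fun j _ => isOpen_lt (by fun_prop) continuous_const) fun J => by
      refine Metric.dense_iff.2 fun x r hr => ?_
      obtain ⟨j, h1, h2⟩ := ((lim.eventually (gt_mem_nhds hr)).and (eventually_ge_atTop J)).exists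
      have h3 := d_pos j
      refine ⟨⌊x / d j⌋ * d j + d j / 2, ?_, mem_biUnion h2 ?_⟩
      · rw [Metric.mem_ball, Real.dist_eq, abs_lt]
        constructor <;> linarith [Int.sub_floor_div_mul_lt x h3, Int.sub_floor_div_mul_nonneg x h3]
      · rw [mem_ofPred_eq, show 2 * Real.pi * ((⌊x / d j⌋ * d j + d j / 2) / d j) =
          ⌊x / d j⌋ * (2 * Real.pi) + Real.pi by field_simp, Real.cos_int_mul_two_pi_add_pi]
        norm_num
  refine isTotallyDisconnected_iff_lt.2 fun x _ y _ hxy => ?_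
  obtain ⟨z, h1, h2⟩ := this.exists_between hxy
  refine ⟨z, fun h3 => ?_, h2⟩
  obtain ⟨J, hJ⟩ := eventually_atTop.1 h3
  obtain ⟨j, h4, h5⟩ := mem_iUnion₂.1 (mem_iInter.1 h1 J)
  exact not_lt.2 (hJ j h4) h5

theorem result : ∃ (n : ℕ) (H : (Fin n → ℝ) → Submodule ℂ (Fin n → ℂ)), IsCR H ∧
    ∃ p : Fin n → ℝ, ∀ (Y : Type) [TopologicalSpace Y] [SecondCountableTopology Y]
      [LocallyConnectedSpace Y] (f : Y → Fin n → ℝ), Continuous f → range f ≠ orbit H p := by
  obtain ⟨ρ, hρ, z1, z2, z3, z4⟩ := exists_rho h_pos d_pos h_succ' (by simp [h, N])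
  obtain ⟨C, hC, hZ⟩ := countable_Z z3
  refine ⟨5, HH ρ, isCR hρ, 0, fun Y _ _ _ f hf hr => ?_⟩
  have anti : Antitone h := antitone_nat_of_succ_le fun j => by linarith [h_succ' j, h_pos j]
  have geo := tendsto_pow_atTop_nhds_zero_of_lt_one (r := (1 / 2 : ℝ)) (by norm_num) (by norm_num)
  have lim : Tendsto h atTop (𝓝[≠] 0) := tendsto_nhdsWithin_iff.2
    ⟨squeeze_zero (fun j => (h_pos j).le) (fun j => pw (by omega)) geo,
      Eventually.of_forall fun j => (h_pos j).ne'⟩
  have A : ∀ q ∈ orbit (HH ρ) 0, ∀ᶠ j in atTop, 0 ≤ Real.cos (2 * Real.pi * (q 2 / d j)) := by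
    rintro _ ⟨F, hF, hp, rfl⟩
    obtain ⟨a1, a2⟩ := orbit_zero hρ z1 hC hZ hF hp
    have hn := F.open_source.mem_nhds hp
    have hd := (hF.1.contDiffAt hn).differentiableAt (by simp)
    have a3 := fun i => ((hasDerivAt_pi.1 (line_deriv hd (e 3)) i).tendsto_slope_zero.comp lim).abs
    have a4 := abs_pos.2 a2
    set v := |fderiv ℝ F 0 (e 3) 3|
    set w := |fderiv ℝ F 0 (e 3) 2|
    filter_upwards [(a3 3).eventually (Ioo_mem_nhds (half_lt_self a4) (lt_add_one v)),
      (a3 2).eventually (gt_mem_nhds (lt_add_one w)),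
      (lim.mono_right nhdsWithin_le_nhds).eventually (line_nhds hn (e 3)),
      geo.eventually (gt_mem_nhds (half_pos a4)),
      (geo.const_mul (v + 1)).eventually (gt_mem_nhds (by simp : (v + 1) * 0 < 1)),
      (geo.const_mul (w + 1)).eventually (gt_mem_nhds (by simp : (w + 1) * 0 < 1 / 4))]
      with j b1 b2 b3 b4 b5 b6
    have hj := h_pos j
    simp only [Function.comp_apply, zero_add, zero_smul, a1, sub_zero, smul_eq_mul, abs_mul,
      abs_of_pos (inv_pos.2 hj), mem_Ioo, lt_inv_mul_iff₀ hj, inv_mul_lt_iff₀ hj] at b1 b2 b3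
    rcases z3 _ _ (levi hρ hF b3 (by simpa [e] using z2 j)) with c1 | ⟨m, c1, k, c2⟩
    · rw [c1, abs_zero] at b1
      nlinarith [b1.1]
    rw [c1, abs_of_pos (h_pos m)] at b1
    have c3 : m = j := by
      by_contra hc
      rcases lt_or_gt_of_ne hc with c4 | c4
      · obtain ⟨i, rfl⟩ := Nat.exists_eq_add_of_lt c4
        have c5 := h_succ (m + i)
        have c6 := anti (Nat.le_add_right m i)
        have c7 : 0 < (1 / 2 : ℝ) ^ (m + i) := by positivity
        rw [pow_succ] at b5
        have c8 : h (m + i + 1) * (v + 1) ≤ h m * (1 / 2) ^ (m + i) / 8 * (v + 1) := by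
          gcongr
          exact c5.trans (by gcongr)
        nlinarith [b1.2, h_pos m]
      · have c5 := (anti (show j + 1 ≤ m from c4)).trans (h_succ j)
        nlinarith [b1.1]
    subst c3
    have c4 := d_pos m
    have c5 : h m = d m * (1 / 2) ^ m := pow_add _ _ _
    rw [c2, abs_sub_comm] at b2
    have c6 : |(F 0 2 - k * d m) / d m| ≤ 1 / 4 := by
      rw [abs_div, abs_of_pos c4, div_le_iff₀ c4]
      rw [c5] at b2
      nlinarith [mul_lt_mul_of_pos_left b6 c4]
    rw [show 2 * Real.pi * (F 0 2 / d m) =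
      2 * Real.pi * ((F 0 2 - k * d m) / d m) + k * (2 * Real.pi) by field_simp; ring,
      Real.cos_add_int_mul_two_pi]
    obtain ⟨c7, c8⟩ := abs_le.1 c6
    exact Real.cos_nonneg_of_neg_pi_div_two_le_of_le (by nlinarith [Real.pi_pos])
      (by nlinarith [Real.pi_pos])
  choose t t1 t2 using S_lim
  have hop : ∀ a, IsOpen {y | f y 2 = a} := fun a => isOpen_iff_mem_nhds.2 fun y hy => by
    filter_upwards [isOpen_connectedComponent.mem_nhds (mem_connectedComponent (x := y))] with z hz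
    exact (disc ((fun y => f y 2) '' connectedComponent y)
      (by rintro _ ⟨y, -, rfl⟩; exact A _ (hr ▸ mem_range_self y))
      (isPreconnected_connectedComponent.image _ (by fun_prop)) (mem_image_of_mem _ hz)
      (mem_image_of_mem _ mem_connectedComponent)).trans hy
  have inj : Function.Injective t := fun b c hbc => funext fun j => by
    have k : ∀ j, S b j = S c j := fun j => by
      obtain ⟨k, hk⟩ := S_int b j
      obtain ⟨l, hl⟩ := S_int c j
      have c1 := t2 b j
      have c2 := t2 c j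
      have c3 := d_pos j
      rw [hk, hbc] at c1
      rw [hl] at c2
      have c4 : (k : ℝ) < l + 1 := lt_of_mul_lt_mul_right (by linarith [c1.1, c2.2]) c3.le
      have c5 : (l : ℝ) < k + 1 := lt_of_mul_lt_mul_right (by linarith [c1.2, c2.1]) c3.le
      rw [hk, hl, show k = l by norm_cast at c4 c5; omega]
    have c1 := k (j + 1)
    rw [S, S, k j, add_right_inj] at c1
    have := (d_pos (j + 1)).ne
    cases hb : b j <;> cases hc : c j <;> simp_all
  have cnt : Countable (ℕ → Bool) := Pairwise.countable_of_isOpen_disjoint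
    (s := fun b => {y | f y 2 = t b})
    (fun b c hbc => disjoint_left.2 fun y h1 h2 => hbc (inj (h1.symm.trans h2)))
    (fun b => hop _) fun b => by
      obtain ⟨s, s1, s2, s3⟩ := z4 (S b) (t b) (t1 b) (S_int b) fun i => by
        rw [abs_of_nonneg (S_step b i).1]
        refine (S_step b i).2.trans ((pw (a := (N i + i + 2) * i) (by rw [N]; omega)).trans_eq ?_)
        rw [pow_mul, pow_add, h]
        congr 1
        ring
      obtain ⟨y, hy⟩ := hr ▸ mem_orbit hρ s1 s3 0 0 0
      exact ⟨y, by simp [hy, s2]⟩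
  obtain ⟨g, hg⟩ := exists_surjective_nat (ℕ → Bool)
  obtain ⟨m, hm⟩ := hg fun i => !g i i
  simpa using congrFun hm m

end Pool.Agent.Results.MP_430a41_an.Q1
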