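import Pool.Agent.H99.CR2

/-! An orbit that is a hyperplane, not spanned by infinitesimal CR automorphisms. -/

open Filter Topology Set Pool.Agent.H99.CR

namespace Pool.Agent.Results.MP_430a41_an.Q2

theorem result : ∃ (n : ℕ) (H : (Fin n → ℝ) → Submodule ℂ (Fin n → ℂ)), IsCR H ∧
    ∃ (p : Fin n → ℝ) (V : Submodule ℝ (Fin n → ℝ)), p ∈ V ∧ orbit H p = V ∧
      ∃ v ∈ V, v ∉ Submodule.span ℝ {w | ∃ X, InfAut H p X ∧ X p = w} := by
  have h0 : ∀ j : ℕ, (0 : ℝ) < (1 / 6) ^ j := fun j => by positivity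
  have h1 : ∀ j : ℕ, ((1 / 6 : ℝ) ^ j / 4) ≤ 1 / 4 := fun j => by
    gcongr
    exact pow_le_one₀ (by norm_num) (by norm_num)
  obtain ⟨ρ, hρ, z1, z2, z3, z4⟩ := exists_rho (h := fun j => (1 / 6) ^ j)
    (d := fun j => ((1 / 6) ^ j / 4) ^ j) h0 (fun j => by positivity)
    (fun j => by rw [pow_succ]; linarith) (by simp)
  obtain ⟨C, hC, hZ⟩ := countable_Z z3
  refine ⟨5, HH ρ, isCR hρ, 0, LinearMap.ker (LinearMap.proj 3), Submodule.zero_mem _, ?_, e 2,
    by simp [e], fun hv => ?_⟩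
  · ext q
    refine ⟨fun ⟨h, hh, hp, hq⟩ => hq ▸ (orbit_zero hρ z1 hC hZ hh hp).1, fun hq => ?_⟩
    set d : ℕ → ℝ := fun j => ((1 / 6) ^ j / 4) ^ j with hd
    have d0 : ∀ j, 0 < d j := fun j => by positivity
    have a1 : ∀ j, q 2 - d j ≤ ⌊q 2 / d j⌋ * d j ∧ ⌊q 2 / d j⌋ * d j ≤ q 2 := fun j =>
      ⟨(Int.sub_floor_div_mul_lt (q 2) (d0 j)).le |> fun h => by linarith,
        by linarith [Int.sub_floor_div_mul_nonneg (q 2) (d0 j)]⟩
    have a2 : Tendsto d atTop (𝓝 0) := squeeze_zero (fun j => (d0 j).le)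
      (fun j => pow_le_pow_left₀ (by positivity) (h1 j) j)
      (tendsto_pow_atTop_nhds_zero_of_lt_one (by norm_num) (by norm_num))
    obtain ⟨s, s1, s2, s3⟩ := z4 (fun j => ⌊q 2 / d j⌋ * d j) (q 2)
      (tendsto_of_tendsto_of_tendsto_of_le_of_le (by simpa using a2.const_sub (q 2))
        tendsto_const_nhds (fun j => (a1 j).1) fun j => (a1 j).2) (fun j => ⟨_, rfl⟩) fun i => by
        have a3 : d (i + 1) ≤ d i := by
          refine (pow_le_pow_of_le_one (by positivity) ((h1 _).trans (by norm_num))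
            i.le_succ).trans (pow_le_pow_left₀ (by positivity) ?_ i)
          rw [pow_succ]
          linarith [h0 i]
        change _ ≤ d i
        rw [abs_le]
        constructor <;> linarith [a1 i, a1 (i + 1)]
    convert mem_orbit hρ s1 s3 (q 0) (q 1) (q 4)
    funext i
    have : q 3 = 0 := hq
    fin_cases i <;> simp [s2, this]
  · have key : Submodule.span ℝ {w | ∃ X, InfAut (HH ρ) 0 X ∧ X 0 = w} ≤
        LinearMap.ker (LinearMap.proj 2) := by
      refine Submodule.span_le.2 ?_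
      rintro _ ⟨X, ⟨⟨W, hW, hX⟩, ε, hε, U, hU, Φ, h2, h3⟩, rfl⟩
      have lim : Tendsto (fun j : ℕ => ((1 / 6 : ℝ) ^ j) • e 3) atTop (𝓝 0) := by
        simpa using (tendsto_pow_atTop_nhds_zero_of_lt_one (r := (1 / 6 : ℝ)) (by norm_num)
          (by norm_num)).smul_const (e 3)
      have a1 := (continuous_apply 2).continuousAt.tendsto.comp
        ((hX.contDiffAt hW).continuousAt.tendsto.comp lim)
      refine tendsto_nhds_unique a1 (tendsto_const_nhds.congr' ?_)
      filter_upwards [lim.eventually hU] with j hj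
      have hI : Ioo (-ε) ε ∈ 𝓝 (0 : ℝ) := Ioo_mem_nhds (by linarith) hε
      have a2 := fun s hs i => hasDerivAt_pi.1 ((h3 s hs).2.2 _ hj) i
      have a3 := (a2 0 (mem_of_mem_nhds hI) 3).continuousAt.eventually_ne (y := 0)
        (by rw [h2 _ hj]; simp [e])
      have a4 := const_of_countable hC (by
        filter_upwards [hI, a3] with s hs a5
        exact ⟨(a2 s hs 2).continuousAt, (hZ _ _ (levi hρ (h3 s hs).1 ((h3 s hs).2.1 hj)
          (by simpa [e] using z2 j))).2 a5⟩) (a2 0 (mem_of_mem_nhds hI) 2)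
      rw [h2 _ hj] at a4
      exact a4.symm
    simpa [e] using key hv

end Pool.Agent.Results.MP_430a41_an.Q2
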